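import Pool.Agent.RDO.Stmts

/-!
# Squad RDO, row RTA: a good rotation (helper59)
-/

set_option autoImplicit false

open MeasureTheory Module Submodule
open scoped ENNReal Pointwise

namespace Pool.Agent.RDO.H59

theorem ev_cont : Continuous ev := by
  unfold ev
  refine (PiLp.continuous_toLp 2 _).comp ?_
  refine continuous_pi fun i => ?_
  fin_cases i
  · exact Real.continuous_cos
  · exact Real.continuous_sin

theorem ev_add (θ : ℝ) (n : ℤ) : ev (θ + n * (2 * Real.pi)) = ev θ := by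
  unfold ev
  rw [Real.cos_add_int_mul_two_pi, Real.sin_add_int_mul_two_pi]

theorem un_meas {n : ℕ} (c : Fin n → P2) : MeasurableSet (Un c) :=
  MeasurableSet.iUnion fun _ => Metric.isClosed_closedBall.measurableSet

theorem un_fin {n : ℕ} (c : Fin n → P2) : volume (Un c) < ⊤ := by
  refine (measure_iUnion_le _).trans_lt ?_
  rw [tsum_fintype]
  exact ENNReal.sum_lt_top.2 fun i _ => measure_closedBall_lt_top

/-- measurability of the measure of the conflicts -/
theorem f_meas {n : ℕ} (c : Fin n → P2) (k : P2 → Fin n) (hk : Measurable k) (s : ℝ) :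
    Measurable fun θ : ℝ => volume (Zc c k (s • ev θ)) := by
  have hc : Measurable fun z : P2 => c (k z) := (measurable_of_finite c).comp hk
  have h1 : Measurable fun p : ℝ × P2 => p.2 + s • ev p.1 :=
    measurable_snd.add ((ev_cont.measurable.comp measurable_fst).const_smul s)
  have hS : MeasurableSet {p : ℝ × P2 | p.2 ∈ Un c ∧ p.2 + s • ev p.1 ∈ Un c ∧
      dist (c (k p.2)) (c (k (p.2 + s • ev p.1))) < 2} := by
    refine MeasurableSet.inter (measurable_snd (un_meas c)) (MeasurableSet.inter (h1 (un_meas c)) ?_)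
    exact measurableSet_lt ((hc.comp measurable_snd).dist (hc.comp h1)) measurable_const
  exact measurable_measure_prodMk_left hS

theorem shift {F : ℝ → ℝ≥0∞} (hp : ∀ (θ : ℝ) (n : ℤ), F (θ + n * (2 * Real.pi)) = F θ)
    (a : ℝ) : ∫⁻ θ in Set.Ioc 0 (2 * Real.pi), F (θ + a) = ∫⁻ θ in Set.Ioc 0 (2 * Real.pi), F θ := by
  have h2 : (0 : ℝ) < 2 * Real.pi := by positivity
  have e1 : ∫⁻ θ in Set.Ioc 0 (2 * Real.pi), F (θ + a) =
      ∫⁻ θ in Set.Ioc a (a + 2 * Real.pi), F θ := by
    have h3 := (measurePreserving_add_right (volume : Measure ℝ) a).setLIntegral_comp_preimage_emb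
      (measurableEmbedding_addRight a) F (Set.Ioc a (a + 2 * Real.pi))
    rw [← h3]
    congr 2
    ext x
    simp [add_comm]
  rw [e1]
  have h4 := (isAddFundamentalDomain_Ioc h2 a).setLIntegral_eq (isAddFundamentalDomain_Ioc h2 0) F ?_
  · rw [h4, zero_add]
  · rintro ⟨g, hg⟩ x
    obtain ⟨m, rfl⟩ := AddSubgroup.mem_zmultiples_iff.1 hg
    show F (m • (2 * Real.pi) + x) = F x
    rw [add_comm, zsmul_eq_mul, hp]

/-- Row RTA. -/
theorem rta : RtaStmt := by
  intro n c k hk s
  set F : ℝ → ℝ≥0∞ := fun θ => volume (Zc c k (s • ev θ)) with hF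
  have hFm : Measurable F := f_meas c k hk.meas s
  have hFp : ∀ (θ : ℝ) (m : ℤ), F (θ + m * (2 * Real.pi)) = F θ := by
    intro θ m
    show volume (Zc c k (s • ev (θ + m * (2 * Real.pi)))) = volume (Zc c k (s • ev θ))
    rw [ev_add]
  have h2 : (0 : ℝ) < 2 * Real.pi := by positivity
  have hv : volume (Set.Ioc 0 (2 * Real.pi)) = ENNReal.ofReal (2 * Real.pi) := by
    rw [Real.volume_Ioc, sub_zero]
  have hv0 : volume (Set.Ioc 0 (2 * Real.pi)) ≠ 0 := by
    rw [hv]
    exact (ENNReal.ofReal_pos.2 h2).ne'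
  have hv1 : volume (Set.Ioc 0 (2 * Real.pi)) ≠ ⊤ := by
    rw [hv]
    exact ENNReal.ofReal_ne_top
  have hm : ∀ a : ℝ, Measurable fun θ => F (θ + a) := fun a => hFm.comp (measurable_add_const a)
  obtain ⟨θ, -, hθ⟩ := exists_le_setLAverage (μ := volume) hv0 hv1
    (f := fun θ => F θ + F (θ + Real.pi / 3) + F (θ + 2 * Real.pi / 3))
    ((hFm.add (hm _)).add (hm _)).aemeasurable
  refine ⟨θ, ?_⟩
  rw [setLAverage_eq, lintegral_add_right _ (hm _), lintegral_add_right _ (hm _), shift hFp,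
    shift hFp, hv] at hθ
  have h3 := mul_le_mul_right hθ (ENNReal.ofReal (2 * Real.pi))
  rw [ENNReal.mul_div_cancel (ENNReal.ofReal_pos.2 h2).ne' ENNReal.ofReal_ne_top] at h3
  refine h3.trans (le_of_eq ?_)
  ring

end Pool.Agent.RDO.H59
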